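import Pool.Agent.Q296.Net.Defs
import Pool.Agent.Q296.Seq.Basic
import Pool.Agent.Q296.Cover.Mark

/-!
# General lemmas: picking, supermartingales, non-explosion
-/

namespace Q296.Net

open MeasureTheory ProbabilityTheory Filter Set
open scoped ENNReal

/-! ### Picking -/

lemma measurable_pick {α : Type*} [MeasurableSpace α] (a : α) (l : List (ℝ × α)) :
    Measurable (pick a l) := by
  induction l with
  | nil => exact measurable_const
  | cons p l ih =>
    obtain ⟨w, b⟩ := p
    have h1 : Measurable (fun u : ℝ => pick a l (u - w)) :=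
      ih.comp (measurable_id.sub_const w)
    exact Measurable.ite (measurableSet_lt measurable_id measurable_const) measurable_const h1

lemma lintegral_pick {α : Type*} (g : α → ℝ≥0∞) (a : α) (l : List (ℝ × α))
    (hl : ∀ p ∈ l, 0 ≤ p.1) :
    ∫⁻ u in Ico 0 (l.map Prod.fst).sum, g (pick a l u) =
      (l.map fun p => ENNReal.ofReal p.1 * g p.2).sum := by
  induction l with
  | nil => simp
  | cons p l ih =>
    obtain ⟨w, b⟩ := p
    have hw : 0 ≤ w := hl (w, b) (List.mem_cons_self ..)
    have hl' : ∀ p ∈ l, 0 ≤ p.1 := fun p hp => hl p (List.mem_cons_of_mem _ hp)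
    have hS : 0 ≤ (l.map Prod.fst).sum := List.sum_nonneg (by
      intro x hx
      obtain ⟨p, hp, rfl⟩ := List.mem_map.1 hx
      exact hl' p hp)
    simp only [List.map_cons, List.sum_cons]
    rw [← ih hl']
    set S := (l.map Prod.fst).sum with hSdef
    have hunion : Ico (0 : ℝ) (w + S) = Ico 0 w ∪ Ico w (w + S) :=
      (Ico_union_Ico_eq_Ico hw (by linarith)).symm
    have hdisj : Disjoint (Ico (0 : ℝ) w) (Ico w (w + S)) := by
      rw [Set.disjoint_left]
      rintro x ⟨_, h1⟩ ⟨h2, _⟩
      linarith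
    rw [hunion, lintegral_union measurableSet_Ico hdisj]
    congr 1
    · have h1 : ∫⁻ u in Ico 0 w, g (pick a ((w, b) :: l) u) = ∫⁻ _u in Ico 0 w, g b := by
        refine setLIntegral_congr_fun measurableSet_Ico fun u hu => ?_
        simp only [pick]
        rw [if_pos hu.2]
      rw [h1, lintegral_const, Measure.restrict_apply MeasurableSet.univ, univ_inter,
        Real.volume_Ico, sub_zero, mul_comm]
    · have h2 : ∫⁻ u in Ico w (w + S), g (pick a ((w, b) :: l) u) =
          ∫⁻ u in Ico w (w + S), g (pick a l (u - w)) := by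
        refine setLIntegral_congr_fun measurableSet_Ico fun u hu => ?_
        simp only [pick]
        rw [if_neg (not_lt.2 hu.1)]
      rw [h2, ← lintegral_indicator measurableSet_Ico, ← lintegral_indicator measurableSet_Ico,
        ← lintegral_sub_right_eq_self (μ := volume)
          (fun u => (Ico 0 S).indicator (fun u => g (pick a l u)) u) w]
      refine lintegral_congr fun u => ?_
      by_cases hu : u ∈ Ico w (w + S)
      · have hu2 : u - w ∈ Ico 0 S := ⟨by linarith [hu.1], by linarith [hu.2]⟩
        rw [indicator_of_mem hu, indicator_of_mem hu2]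
      · have hu2 : u - w ∉ Ico 0 S := fun h => hu ⟨by linarith [h.1], by linarith [h.2]⟩
        rw [indicator_of_notMem hu, indicator_of_notMem hu2]

instance : IsProbabilityMeasure (volume.restrict (Ico (0 : ℝ) 1)) := ⟨by
  rw [Measure.restrict_apply MeasurableSet.univ, univ_inter, Real.volume_Ico]; simp⟩

instance : IsProbabilityMeasure noise := by unfold noise; infer_instance

/-! ### Supermartingale arguments -/

section super

variable {E S : Type*} [MeasurableSpace E] [MeasurableSpace S] [Countable S]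
  [MeasurableSingletonClass S] (ν : Measure E) [IsProbabilityMeasure ν] (upd : S → E → S)

omit [IsProbabilityMeasure ν] in
include ν in
lemma measurable_state (hupd : ∀ s, Measurable (upd s)) (s : S) (t : ℕ) :
    Measurable (fun ω : ℕ → E => Seq.state upd s ω t) := by
  have _ := ν
  induction t with
  | zero => exact measurable_const
  | succ t ih =>
    have h1 : Measurable (fun p : S × E => upd p.1 p.2) :=
      measurable_from_prod_countable_right fun s => hupd s
    exact h1.comp (ih.prodMk (measurable_pi_apply t))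

variable (V : S → ℝ≥0∞) (F : Set S)

/-- the event that `V` reaches `L` within `n` steps, without a visit to `F` before -/
def reach (L : ℝ≥0∞) (s : S) (n : ℕ) : Set (ℕ → E) :=
  {ω | ∃ k ≤ n, L ≤ V (Seq.state upd s ω k) ∧ ∀ j < k, Seq.state upd s ω j ∉ F}

omit [IsProbabilityMeasure ν] in
include ν in
lemma measurableSet_reach (hupd : ∀ s, Measurable (upd s)) (L : ℝ≥0∞) (s : S) (n : ℕ) :
    MeasurableSet (reach upd V F L s n) := by
  have : reach upd V F L s n = ⋃ k ∈ Finset.range (n + 1),
      ({ω : ℕ → E | L ≤ V (Seq.state upd s ω k)} ∩ ⋂ j ∈ Finset.range k,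
        {ω | Seq.state upd s ω j ∈ Fᶜ}) := by
    ext ω
    simp only [reach, mem_ofPred_eq, mem_iUnion, Finset.mem_range, Nat.lt_succ_iff, mem_inter_iff,
      mem_iInter, mem_compl_iff, exists_prop]
  rw [this]
  refine Finset.measurableSet_biUnion _ fun k _ => MeasurableSet.inter ?_ ?_
  · exact (measurable_state ν upd hupd s k) ((Set.to_countable {x | L ≤ V x}).measurableSet)
  · refine Finset.measurableSet_biInter _ fun j _ => ?_
    exact (measurable_state ν upd hupd s j) ((Set.to_countable Fᶜ).measurableSet)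

omit [MeasurableSpace E] [MeasurableSpace S] [Countable S] [MeasurableSingletonClass S] in
lemma cons_mem_reach (L : ℝ≥0∞) (s : S) (n : ℕ) (e : E) (ω : ℕ → E) :
    Seq.cons (e, ω) ∈ reach upd V F L s (n + 1) ↔
      L ≤ V s ∨ (s ∉ F ∧ ω ∈ reach upd V F L (upd s e) n) := by
  simp only [reach, mem_ofPred_eq]
  constructor
  · rintro ⟨k, hk, h1, h2⟩
    cases k with
    | zero => left; exact h1
    | succ k =>
      right
      refine ⟨h2 0 (Nat.succ_pos k), k, by omega, ?_, fun j hj => ?_⟩
      · rw [← Seq.state_cons]; exact h1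
      · rw [← Seq.state_cons]; exact h2 (j + 1) (by omega)
  · rintro (h | ⟨h0, k, hk, h1, h2⟩)
    · exact ⟨0, Nat.zero_le _, h, fun j hj => absurd hj (Nat.not_lt_zero j)⟩
    · refine ⟨k + 1, by omega, ?_, fun j hj => ?_⟩
      · rw [Seq.state_cons]; exact h1
      · cases j with
        | zero => exact h0
        | succ j => rw [Seq.state_cons]; exact h2 j (by omega)

lemma reach_le (hupd : ∀ s, Measurable (upd s))
    (hV : ∀ s, s ∉ F → ∫⁻ e, V (upd s e) ∂ν ≤ V s) (L : ℝ≥0∞) (hL0 : L ≠ 0) (hL : L ≠ ∞)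
    (n : ℕ) : ∀ s : S, Seq.iid ν (reach upd V F L s n) ≤ V s / L := by
  have hbig : ∀ s : S, L ≤ V s → (1 : ℝ≥0∞) ≤ V s / L := by
    intro s h
    rw [ENNReal.le_div_iff_mul_le (Or.inl hL0) (Or.inl hL), one_mul]
    exact h
  induction n with
  | zero =>
    intro s
    by_cases h : L ≤ V s
    · exact prob_le_one.trans (hbig s h)
    · have : reach upd V F L s 0 = (∅ : Set (ℕ → E)) := by
        ext ω
        simp only [reach, mem_ofPred_eq, mem_empty_iff_false, iff_false]
        rintro ⟨k, hk, h1, _⟩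
        have hk0 : k = 0 := by omega
        rw [hk0] at h1
        exact h h1
      rw [this, measure_empty]
      exact bot_le
  | succ n ih =>
    intro s
    by_cases h : L ≤ V s
    · exact prob_le_one.trans (hbig s h)
    · by_cases hF : s ∈ F
      · have : reach upd V F L s (n + 1) = (∅ : Set (ℕ → E)) := by
          ext ω
          simp only [reach, mem_ofPred_eq, mem_empty_iff_false, iff_false]
          rintro ⟨k, hk, h1, h2⟩
          cases k with
          | zero => exact h h1
          | succ k => exact h2 0 (Nat.succ_pos k) hF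
        rw [this, measure_empty]
        exact bot_le
      · rw [Seq.measure_cons ν (measurableSet_reach ν upd V F hupd L s (n + 1))]
        have h1 : ∀ e, Seq.iid ν {ω | Seq.cons (e, ω) ∈ reach upd V F L s (n + 1)} =
            Seq.iid ν (reach upd V F L (upd s e) n) := by
          intro e
          congr 1
          ext ω
          rw [mem_ofPred_eq, cons_mem_reach]
          simp [h, hF]
        simp only [h1]
        calc ∫⁻ e, Seq.iid ν (reach upd V F L (upd s e) n) ∂ν
            ≤ ∫⁻ e, V (upd s e) * L⁻¹ ∂ν := by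
              refine lintegral_mono fun e => ?_
              rw [← div_eq_mul_inv]
              exact ih _
          _ = (∫⁻ e, V (upd s e) ∂ν) * L⁻¹ :=
              lintegral_mul_const' _ _ (ENNReal.inv_ne_top.2 hL0)
          _ ≤ V s * L⁻¹ := by gcongr; exact hV s hF
          _ = V s / L := (div_eq_mul_inv _ _).symm

/-- the event that from time `N` on the set `F` is avoided, and `V` is unbounded -/
def escape (N : ℕ) (s : S) : Set (ℕ → E) :=
  {ω | (∀ k ≥ N, Seq.state upd s ω k ∉ F) ∧
    ∀ L : ℕ, ∃ k ≥ N, (L : ℝ≥0∞) ≤ V (Seq.state upd s ω k)}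

omit [IsProbabilityMeasure ν] in
include ν in
lemma measurableSet_escape (hupd : ∀ s, Measurable (upd s)) (N : ℕ) (s : S) :
    MeasurableSet (escape upd V F N s) := by
  have : escape upd V F N s = (⋂ k : ℕ, {ω : ℕ → E | k ≥ N → Seq.state upd s ω k ∈ Fᶜ}) ∩
      ⋂ L : ℕ, ⋃ k : ℕ, {ω | k ≥ N ∧ (L : ℝ≥0∞) ≤ V (Seq.state upd s ω k)} := by
    ext ω
    simp only [escape, mem_ofPred_eq, mem_inter_iff, mem_iInter, mem_iUnion, mem_compl_iff]
  rw [this]
  refine MeasurableSet.inter ?_ ?_
  · refine MeasurableSet.iInter fun k => ?_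
    by_cases hk : k ≥ N
    · simp only [hk, true_implies]
      exact (measurable_state ν upd hupd s k) ((Set.to_countable Fᶜ).measurableSet)
    · simp [hk]
  · refine MeasurableSet.iInter fun L => MeasurableSet.iUnion fun k => ?_
    by_cases hk : k ≥ N
    · simp only [hk, true_and]
      exact (measurable_state ν upd hupd s k) ((Set.to_countable {x | (L : ℝ≥0∞) ≤ V x}).measurableSet)
    · simp [hk]

theorem measure_escape (hupd : ∀ s, Measurable (upd s))
    (hV : ∀ s, s ∉ F → ∫⁻ e, V (upd s e) ∂ν ≤ V s) (hVfin : ∀ s, V s ≠ ∞) (N : ℕ) :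
    ∀ s : S, Seq.iid ν (escape upd V F N s) = 0 := by
  induction N with
  | zero =>
    intro s
    have h1 : ∀ L : ℕ, Seq.iid ν (escape upd V F 0 s) ≤ V s / ((L + 1 : ℕ) : ℝ≥0∞) := by
      intro L
      have h2 : escape upd V F 0 s ⊆ ⋃ n, reach upd V F ((L + 1 : ℕ) : ℝ≥0∞) s n := by
        rintro ω ⟨ha, hb⟩
        obtain ⟨k, _, hk⟩ := hb (L + 1)
        exact mem_iUnion.2 ⟨k, k, le_rfl, hk, fun j _ => ha j (Nat.zero_le _)⟩
      have hmono : Monotone fun n => (reach upd V F ((L + 1 : ℕ) : ℝ≥0∞) s n : Set (ℕ → E)) := by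
        rintro m n hmn ω ⟨k, hk, h⟩
        exact ⟨k, hk.trans hmn, h⟩
      refine (measure_mono h2).trans ?_
      rw [hmono.measure_iUnion]
      refine iSup_le fun n => ?_
      exact reach_le ν upd V F hupd hV _ (by simp) (ENNReal.natCast_ne_top _) n s
    have h3 : Tendsto (fun L : ℕ => V s / ((L + 1 : ℕ) : ℝ≥0∞)) atTop (nhds 0) := by
      have h4 : Tendsto (fun L : ℕ => V s / ((L : ℕ) : ℝ≥0∞)) atTop (nhds 0) := by
        have h5 := ENNReal.Tendsto.const_div (a := V s) ENNReal.tendsto_nat_nhds_top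
          (Or.inr (hVfin s))
        rwa [ENNReal.div_top] at h5
      exact (tendsto_add_atTop_iff_nat 1).2 h4
    exact le_antisymm (ge_of_tendsto' h3 h1) bot_le
  | succ N ih =>
    intro s
    rw [Seq.measure_cons ν (measurableSet_escape ν upd V F hupd (N + 1) s)]
    have h1 : ∀ e, {ω | Seq.cons (e, ω) ∈ escape upd V F (N + 1) s} =
        escape upd V F N (upd s e) := by
      intro e
      ext ω
      simp only [escape, mem_ofPred_eq]
      constructor
      · rintro ⟨ha, hb⟩
        refine ⟨fun k hk => ?_, fun L => ?_⟩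
        · rw [← Seq.state_cons]; exact ha (k + 1) (by omega)
        · obtain ⟨k, hk, h2⟩ := hb L
          obtain ⟨k', rfl⟩ : ∃ k', k = k' + 1 := ⟨k - 1, by omega⟩
          exact ⟨k', by omega, by rw [← Seq.state_cons]; exact h2⟩
      · rintro ⟨ha, hb⟩
        refine ⟨fun k hk => ?_, fun L => ?_⟩
        · obtain ⟨k', rfl⟩ : ∃ k', k = k' + 1 := ⟨k - 1, by omega⟩
          rw [Seq.state_cons]; exact ha k' (by omega)
        · obtain ⟨k, hk, h2⟩ := hb L
          exact ⟨k + 1, by omega, by rw [Seq.state_cons]; exact h2⟩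
    simp only [h1, ih, lintegral_zero]

end super

/-! ### Non-explosion -/

lemma laplace_exp (a : ℝ) (ha : 0 < a) :
    ∫⁻ x, ENNReal.ofReal (Real.exp (-(x / a))) ∂(expMeasure 1) = ENNReal.ofReal (a / (a + 1)) := by
  have hm : Measurable fun x : ℝ => ENNReal.ofReal (Real.exp (-(x / a))) := by fun_prop
  rw [Cover.lintegral_expMeasure hm]
  have hb : -(1 + 1 / a) < 0 := by
    have : 0 < 1 / a := by positivity
    linarith
  have h1 : ∀ x : ℝ, ENNReal.ofReal (Real.exp (-x)) * ENNReal.ofReal (Real.exp (-(x / a))) =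
      ENNReal.ofReal (Real.exp (-(1 + 1 / a) * x)) := by
    intro x
    rw [← ENNReal.ofReal_mul (Real.exp_nonneg _), ← Real.exp_add]
    congr 2
    field_simp
    ring
  simp only [h1]
  rw [← ofReal_integral_eq_lintegral_ofReal]
  · congr 1
    rw [integral_exp_mul_Ioi hb, mul_zero, Real.exp_zero]
    field_simp
  · exact integrableOn_exp_mul_Ioi hb 0
  · exact Filter.Eventually.of_forall fun x => Real.exp_nonneg _

/-- the comparison series -/
noncomputable def ser (a : ℝ) (ω : ℕ → ℝ × ℝ) (n : ℕ) : ℝ :=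
  ∑ j ∈ Finset.range n, (ω j).2 / (a + j)

lemma ser_cons (a : ℝ) (e : ℝ × ℝ) (ω : ℕ → ℝ × ℝ) (n : ℕ) :
    ser a (Seq.cons (e, ω)) (n + 1) = e.2 / a + ser (a + 1) ω n := by
  unfold ser
  rw [Finset.sum_range_succ']
  simp only [Seq.cons_succ, Seq.cons_zero, Nat.cast_zero, add_zero, Nat.cast_add, Nat.cast_one]
  rw [add_comm]
  congr 1
  refine Finset.sum_congr rfl fun j _ => ?_
  congr 1
  ring

lemma measurable_ser (a : ℝ) (n : ℕ) : Measurable fun ω : ℕ → ℝ × ℝ => ser a ω n := by
  unfold ser
  exact Finset.measurable_sum _ fun j _ => ((measurable_pi_apply j).snd).div_const _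

lemma laplace_ser (n : ℕ) : ∀ a : ℝ, 0 < a →
    ∫⁻ ω, ENNReal.ofReal (Real.exp (-ser a ω n)) ∂(Seq.iid noise) =
      ENNReal.ofReal (a / (a + n)) := by
  induction n with
  | zero =>
    intro a ha
    have : (fun ω : ℕ → ℝ × ℝ => ENNReal.ofReal (Real.exp (-ser a ω 0))) = fun _ => 1 := by
      funext ω
      simp [ser]
    rw [this, lintegral_const, measure_univ, mul_one, Nat.cast_zero, add_zero, div_self ha.ne']
    simp
  | succ n ih =>
    intro a ha
    have hm : Measurable fun ω : ℕ → ℝ × ℝ => ENNReal.ofReal (Real.exp (-ser a ω (n + 1))) :=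
      (Real.continuous_exp.measurable.comp (measurable_ser a (n + 1)).neg).ennreal_ofReal
    rw [Seq.lintegral_cons noise hm]
    have h1 : ∀ e : ℝ × ℝ, ∫⁻ ω, ENNReal.ofReal (Real.exp (-ser a (Seq.cons (e, ω)) (n + 1)))
        ∂(Seq.iid noise) = ENNReal.ofReal (Real.exp (-(e.2 / a))) *
          ENNReal.ofReal ((a + 1) / (a + 1 + n)) := by
      intro e
      rw [← ih (a + 1) (by linarith), ← lintegral_const_mul']
      · refine lintegral_congr fun ω => ?_
        rw [ser_cons, ← ENNReal.ofReal_mul (Real.exp_nonneg _), ← Real.exp_add]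
        congr 2
        ring
      · exact ENNReal.ofReal_ne_top
    simp only [h1]
    rw [lintegral_mul_const' _ _ ENNReal.ofReal_ne_top]
    have h2 : ∫⁻ e : ℝ × ℝ, ENNReal.ofReal (Real.exp (-(e.2 / a))) ∂noise =
        ENNReal.ofReal (a / (a + 1)) := by
      have hm2 : Measurable fun e : ℝ × ℝ => ENNReal.ofReal (Real.exp (-(e.2 / a))) := by fun_prop
      unfold noise
      rw [lintegral_prod _ hm2.aemeasurable]
      simp only [laplace_exp a ha]
      rw [lintegral_const, measure_univ, mul_one]
    rw [h2, ← ENNReal.ofReal_mul (by positivity)]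
    congr 1
    push_cast
    field_simp
    ring

/-- almost surely all exponential variables are positive -/
lemma ae_noise_pos : ∀ᵐ ω ∂(Seq.iid noise), ∀ j, 0 < (ω j).2 := by
  rw [ae_all_iff]
  intro j
  have h1 : (Seq.iid noise).map (fun ω => ω j) = noise := by
    have := measurePreserving_eval_infinitePi (fun _ : ℕ => noise) j
    exact this.map_eq
  have h2 : ∀ᵐ e ∂noise, 0 < e.2 := by
    have h3 : ∀ᵐ x ∂(noise.map Prod.snd), 0 < x := by
      have : noise.map Prod.snd = expMeasure 1 := by
        unfold noise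
        rw [Measure.map_snd_prod, measure_univ, one_smul]
      rw [this]; exact Cover.ae_pos
    exact ae_of_ae_map measurable_snd.aemeasurable h3
  rw [← h1] at h2
  exact ae_of_ae_map (measurable_pi_apply j).aemeasurable h2

lemma ae_ser_tendsto (a : ℝ) (ha : 0 < a) :
    ∀ᵐ ω ∂(Seq.iid noise), Tendsto (ser a ω) atTop atTop := by
  -- almost surely unbounded
  have h1 : ∀ M : ℕ, Seq.iid noise {ω | ∀ n, ser a ω n ≤ M} = 0 := by
    intro M
    have h2 : ∀ n : ℕ, Seq.iid noise {ω | ∀ n, ser a ω n ≤ M} ≤
        ENNReal.ofReal (a / (a + n)) / ENNReal.ofReal (Real.exp (-(M : ℝ))) := by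
      intro n
      have hm : Measurable fun ω : ℕ → ℝ × ℝ => ENNReal.ofReal (Real.exp (-ser a ω n)) :=
        (Real.continuous_exp.measurable.comp (measurable_ser a n).neg).ennreal_ofReal
      rw [← laplace_ser n a ha]
      refine le_trans (measure_mono ?_) (meas_ge_le_lintegral_div hm.aemeasurable
        (by simp [Real.exp_pos]) ENNReal.ofReal_ne_top)
      intro ω hω
      simp only [mem_ofPred_eq] at hω ⊢
      refine ENNReal.ofReal_le_ofReal (Real.exp_le_exp.2 ?_)
      linarith [hω n]
    have h3 : Tendsto (fun n : ℕ => ENNReal.ofReal (a / (a + n)) /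
        ENNReal.ofReal (Real.exp (-(M : ℝ)))) atTop (nhds 0) := by
      have h4 : Tendsto (fun n : ℕ => a / (a + n)) atTop (nhds 0) :=
        tendsto_const_nhds.div_atTop (tendsto_atTop_add_const_left _ _ tendsto_natCast_atTop_atTop)
      have h5 := ENNReal.tendsto_ofReal h4
      rw [ENNReal.ofReal_zero] at h5
      have h6 := ENNReal.Tendsto.div_const (b := ENNReal.ofReal (Real.exp (-(M : ℝ)))) h5
        (Or.inr (by simp [Real.exp_pos]))
      rwa [ENNReal.zero_div] at h6
    exact le_antisymm (ge_of_tendsto' h3 h2) bot_le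
  have h7 : ∀ᵐ ω ∂(Seq.iid noise), ∀ M : ℕ, ¬ ∀ n, ser a ω n ≤ M := by
    rw [ae_all_iff]
    intro M
    exact measure_eq_zero_iff_ae_notMem.1 (h1 M)
  filter_upwards [h7, ae_noise_pos] with ω hω hpos
  have hmono : Monotone (ser a ω) := by
    refine monotone_nat_of_le_succ fun n => ?_
    unfold ser
    rw [Finset.sum_range_succ]
    have : 0 ≤ (ω n).2 / (a + n) := div_nonneg (hpos n).le (by positivity)
    linarith
  refine tendsto_atTop_atTop_of_monotone hmono fun b => ?_
  obtain ⟨M, hM⟩ := exists_nat_ge b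
  have h8 := hω M
  push Not at h8
  obtain ⟨n, hn⟩ := h8
  exact ⟨n, by linarith⟩

end Q296.Net
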