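import Pool.Agent.Q296.Seq.Defs

/-!
# Stochastic reaction networks in a randomly switching environment
-/

namespace Q296.Net

open MeasureTheory ProbabilityTheory Filter
open scoped ENNReal

/-- A reaction `src → tgt` on `d` species with its rate constant `c`. -/
structure Reaction (d : ℕ) where
  /-- the source complex -/
  src : Fin d → ℕ
  /-- the target complex -/
  tgt : Fin d → ℕ
  /-- the rate constant -/
  c : ℝ

variable {d n : ℕ}

/-- The mass-action rate `c * ∏ₘ ∏_{j < yₘ} (xₘ - j)`. -/
def Reaction.rate (r : Reaction d) (x : Fin d → ℕ) : ℝ :=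
  r.c * ∏ m, ∏ j ∈ Finset.range (r.src m), ((x m : ℝ) - j)

/-- The `ℓ¹` norm of a vector of species counts. -/
def norm1 (x : Fin d → ℕ) : ℕ := ∑ m, x m

/-- The reactions are at-most-monomolecular, have positive rate constants, and are distinct. -/
def IsMonomolecular (R : List (Reaction d)) : Prop :=
  (∀ r ∈ R, (r.src = 0 ∨ ∃ l, r.src = Pi.single l 1) ∧ 0 < r.c ∧ r.src ≠ r.tgt) ∧
    (R.map fun r => (r.src, r.tgt)).Nodup

/-- `M` is the matrix of the linear part of the drift:
`∑ λ(x) (y'ₘ - yₘ) = (M x)ₘ + o(‖x‖₁)`. -/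
def IsLinearPart (R : List (Reaction d)) (M : Matrix (Fin d) (Fin d) ℝ) : Prop :=
  ∀ m, ∀ ε > (0 : ℝ), ∃ N : ℕ, ∀ x : Fin d → ℕ, N ≤ norm1 x →
    |(R.map fun r => r.rate x * ((r.tgt m : ℝ) - r.src m)).sum -
      M.mulVec (fun l => (x l : ℝ)) m| ≤ ε * norm1 x

/-- `Q` is the rate matrix of an irreducible Markov chain. -/
def IsIrreducibleRateMatrix (Q : Matrix (Fin n) (Fin n) ℝ) : Prop :=
  (∀ i j, i ≠ j → 0 ≤ Q i j) ∧ (∀ i, ∑ j, Q i j = 0) ∧
    ∀ i j, Relation.ReflTransGen (fun a b => a ≠ b ∧ 0 < Q a b) i j

/-- The states `(x, i)` of the mixed process. -/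
abbrev State (d n : ℕ) := (Fin d → ℕ) × Fin n

/-- The possible jumps of the mixed process out of the state `z` and their rates: the reactions
of the present environment, and the changes of the environment. -/
def jumps (R : Fin n → List (Reaction d)) (Q : Matrix (Fin n) (Fin n) ℝ) (κ : ℝ) (z : State d n) :
    List (ℝ × State d n) :=
  (R z.2).map (fun r => (r.rate z.1, (fun m => z.1 m + r.tgt m - r.src m, z.2))) ++
    ((List.finRange n).filter (fun j => j ≠ z.2)).map (fun j => (κ * Q z.2 j, (z.1, j)))

/-- The total jump rate. -/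
def total (R : Fin n → List (Reaction d)) (Q : Matrix (Fin n) (Fin n) ℝ) (κ : ℝ)
    (z : State d n) : ℝ := ((jumps R Q κ z).map Prod.fst).sum

/-- Divide `[0, 1)` into consecutive intervals whose lengths are the first components of the list
`l`; the result is the entry whose interval contains `u` (`a` if there is none). -/
noncomputable def pick {α : Type*} (a : α) : List (ℝ × α) → ℝ → α
  | [], _ => a
  | (w, b) :: l, u => if u < w then b else pick a l (u - w)

/-- The next state of the jump chain, when `u` is uniform on `[0, 1)`: the jump with rate `w` is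
chosen with probability `w / total`. -/
noncomputable def next (R : Fin n → List (Reaction d)) (Q : Matrix (Fin n) (Fin n) ℝ) (κ : ℝ)
    (z : State d n) (e : ℝ × ℝ) : State d n :=
  pick z ((jumps R Q κ z).map fun p => (p.1 / total R Q κ z, p.2)) e.1

/-- The law of the noise of one step: a uniform variable on `[0, 1)` and an independent
exponential variable with mean `1`. -/
noncomputable def noise : Measure (ℝ × ℝ) :=
  (volume.restrict (Set.Ico 0 1)).prod (expMeasure 1)

/-- The time of the `k`-th jump: the holding time in a state is exponential, its parameter is the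
total jump rate. -/
noncomputable def jumpTime (R : Fin n → List (Reaction d)) (Q : Matrix (Fin n) (Fin n) ℝ) (κ : ℝ)
    (z : State d n) (ω : ℕ → ℝ × ℝ) (k : ℕ) : ℝ :=
  ∑ j ∈ Finset.range k, (ω j).2 / total R Q κ (Seq.state (next R Q κ) z ω j)

/-- The mixed process `Z_κ` at time `t`, started from `z`: the state of the jump chain after `k`
jumps, where `k` is least with `t < T_{k+1}`. -/
noncomputable def Z (R : Fin n → List (Reaction d)) (Q : Matrix (Fin n) (Fin n) ℝ) (κ : ℝ)
    (z : State d n) (ω : ℕ → ℝ × ℝ) (t : ℝ) : State d n :=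
  Seq.state (next R Q κ) z ω (sInf {k : ℕ | t < jumpTime R Q κ z ω (k + 1)})

/-- The state `z` is evanescent: with positive probability `‖X(t)‖₁ → ∞`. -/
def Evanescent (R : Fin n → List (Reaction d)) (Q : Matrix (Fin n) (Fin n) ℝ) (κ : ℝ)
    (z : State d n) : Prop :=
  0 < Seq.iid noise {ω | Tendsto (fun t : ℝ => norm1 (Z R Q κ z ω t).1) atTop atTop}

/-- The process does not explode: almost surely the jump times tend to infinity. -/
def NonExplosive (R : Fin n → List (Reaction d)) (Q : Matrix (Fin n) (Fin n) ℝ) (κ : ℝ)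
    (z : State d n) : Prop :=
  ∀ᵐ ω ∂(Seq.iid noise), Tendsto (fun k => jumpTime R Q κ z ω k) atTop atTop

end Q296.Net
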