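import Pool.Agent.Q296.Net.Main

/-!
# The example
-/

namespace Q296.Net

open MeasureTheory ProbabilityTheory Filter Set
open scoped ENNReal

/-- The reactions of the first environment:
`0 → s`, `s → a`, `a → 2a` with rate constant `1`, and `b → 0` with rate constant `2`. -/
def env0 : List (Reaction 3) :=
  [⟨![0, 0, 0], ![1, 0, 0], 1⟩, ⟨![1, 0, 0], ![0, 1, 0], 1⟩, ⟨![0, 1, 0], ![0, 2, 0], 1⟩,
    ⟨![0, 0, 1], ![0, 0, 0], 2⟩]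

/-- The reactions of the second environment: the roles of `a` and `b` are exchanged. -/
def env1 : List (Reaction 3) :=
  [⟨![0, 0, 0], ![1, 0, 0], 1⟩, ⟨![1, 0, 0], ![0, 0, 1], 1⟩, ⟨![0, 0, 1], ![0, 0, 2], 1⟩,
    ⟨![0, 1, 0], ![0, 0, 0], 2⟩]

/-- The two environments. -/
def exR : Fin 2 → List (Reaction 3) := ![env0, env1]

/-- The switching rates. -/
def exQ : Matrix (Fin 2) (Fin 2) ℝ := !![-1, 1; 1, -1]

lemma jumps0 (κ : ℝ) (x : Fin 3 → ℕ) :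
    jumps exR exQ κ (x, 0) =
      [(1, (![x 0 + 1, x 1, x 2], 0)), ((x 0 : ℝ), (![x 0 - 1, x 1 + 1, x 2], 0)),
        ((x 1 : ℝ), (![x 0, x 1 + 1, x 2], 0)), (2 * (x 2 : ℝ), (![x 0, x 1, x 2 - 1], 0)),
        (κ, (x, 1))] := by
  have hf : ((List.finRange 2).filter (fun j => j ≠ (0 : Fin 2))) = [1] := by decide
  unfold jumps
  simp only [exR, Matrix.cons_val_zero, env0, List.map_cons, List.map_nil, Reaction.rate,
    Fin.prod_univ_three, Matrix.cons_val_one, Matrix.cons_val_two, Finset.prod_range_zero,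
    Finset.prod_range_one, hf, exQ]
  simp
  refine ⟨?_, ?_, ?_, ?_⟩ <;> (funext m; fin_cases m <;> simp)

lemma jumps1 (κ : ℝ) (x : Fin 3 → ℕ) :
    jumps exR exQ κ (x, 1) =
      [(1, (![x 0 + 1, x 1, x 2], 1)), ((x 0 : ℝ), (![x 0 - 1, x 1, x 2 + 1], 1)),
        ((x 2 : ℝ), (![x 0, x 1, x 2 + 1], 1)), (2 * (x 1 : ℝ), (![x 0, x 1 - 1, x 2], 1)),
        (κ, (x, 0))] := by
  have hf : ((List.finRange 2).filter (fun j => j ≠ (1 : Fin 2))) = [0] := by decide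
  unfold jumps
  simp only [exR, Matrix.cons_val_one, env1, List.map_cons, List.map_nil, Reaction.rate,
    Fin.prod_univ_three, hf, exQ]
  simp
  refine ⟨?_, ?_, ?_, ?_⟩ <;> (funext m; fin_cases m <;> simp)

lemma total0 (κ : ℝ) (x : Fin 3 → ℕ) : total exR exQ κ (x, 0) = 1 + x 0 + x 1 + 2 * x 2 + κ := by
  unfold total
  rw [jumps0]
  simp
  ring

lemma total1 (κ : ℝ) (x : Fin 3 → ℕ) : total exR exQ κ (x, 1) = 1 + x 0 + x 2 + 2 * x 1 + κ := by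
  unfold total
  rw [jumps1]
  simp
  ring

lemma norm1_three (x : Fin 3 → ℕ) : norm1 x = x 0 + x 1 + x 2 := by
  unfold norm1
  rw [Fin.sum_univ_three]

lemma total_pos {κ : ℝ} (hκ : 0 < κ) (z : State 3 2) : 0 < total exR exQ κ z := by
  obtain ⟨x, i⟩ := z
  fin_cases i
  · change 0 < total exR exQ κ (x, 0)
    rw [total0]; positivity
  · change 0 < total exR exQ κ (x, 1)
    rw [total1]; positivity

lemma total_le {κ : ℝ} (z : State 3 2) :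
    total exR exQ κ z ≤ 2 * norm1 z.1 + (1 + κ) := by
  obtain ⟨x, i⟩ := z
  have h : ((norm1 x : ℕ) : ℝ) = x 0 + x 1 + x 2 := by rw [norm1_three]; push_cast; ring
  have h0 : (0 : ℝ) ≤ x 0 := Nat.cast_nonneg _
  have h1 : (0 : ℝ) ≤ x 1 := Nat.cast_nonneg _
  have h2 : (0 : ℝ) ≤ x 2 := Nat.cast_nonneg _
  fin_cases i
  · change total exR exQ κ (x, 0) ≤ 2 * ((norm1 x : ℕ) : ℝ) + (1 + κ)
    rw [total0, h]; linarith
  · change total exR exQ κ (x, 1) ≤ 2 * ((norm1 x : ℕ) : ℝ) + (1 + κ)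
    rw [total1, h]; linarith

lemma jumps_nonneg {κ : ℝ} (hκ : 0 < κ) (z : State 3 2) : ∀ p ∈ jumps exR exQ κ z, 0 ≤ p.1 := by
  obtain ⟨x, i⟩ := z
  fin_cases i
  · change ∀ p ∈ jumps exR exQ κ (x, 0), 0 ≤ p.1
    rw [jumps0]
    intro p hp
    simp only [List.mem_cons, List.not_mem_nil, or_false] at hp
    rcases hp with rfl | rfl | rfl | rfl | rfl <;> simp [hκ.le]
  · change ∀ p ∈ jumps exR exQ κ (x, 1), 0 ≤ p.1
    rw [jumps1]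
    intro p hp
    simp only [List.mem_cons, List.not_mem_nil, or_false] at hp
    rcases hp with rfl | rfl | rfl | rfl | rfl <;> simp [hκ.le]

lemma norm_next {κ : ℝ} (z : State 3 2) (e : ℝ × ℝ) :
    norm1 (next exR exQ κ z e).1 ≤ norm1 z.1 + 1 := by
  rcases next_mem exR exQ κ z e with h | ⟨p, hp, h⟩
  · rw [h]; omega
  · rw [h]
    obtain ⟨x, i⟩ := z
    fin_cases i
    · change p ∈ jumps exR exQ κ (x, 0) at hp
      rw [jumps0] at hp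
      simp only [List.mem_cons, List.not_mem_nil, or_false] at hp
      rcases hp with rfl | rfl | rfl | rfl | rfl <;> simp [norm1_three] <;> omega
    · change p ∈ jumps exR exQ κ (x, 1) at hp
      rw [jumps1] at hp
      simp only [List.mem_cons, List.not_mem_nil, or_false] at hp
      rcases hp with rfl | rfl | rfl | rfl | rfl <;> simp [norm1_three] <;> omega

lemma norm_state {κ : ℝ} (z : State 3 2) (ω : ℕ → ℝ × ℝ) (k : ℕ) :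
    norm1 (Seq.state (next exR exQ κ) z ω k).1 ≤ norm1 z.1 + k := by
  induction k with
  | zero => exact le_rfl
  | succ k ih =>
    have := norm_next (κ := κ) (Seq.state (next exR exQ κ) z ω k) (ω k)
    change norm1 (next exR exQ κ (Seq.state (next exR exQ κ) z ω k) (ω k)).1 ≤ _
    omega

/-! ### Powers -/

section power

variable {θ : ℝ} (h0 : 0 < θ) (h1 : θ ≤ 1)

include h0 in
lemma pw_zero : ((0 : ℕ) : ℝ) ^ θ = 0 := by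
  rw [Nat.cast_zero, Real.zero_rpow h0.ne']

include h0 in
lemma pw_inc_nonneg (m : ℕ) : 0 ≤ ((m + 1 : ℕ) : ℝ) ^ θ - (m : ℝ) ^ θ := by
  have : (m : ℝ) ^ θ ≤ ((m + 1 : ℕ) : ℝ) ^ θ :=
    Real.rpow_le_rpow (by positivity) (by push_cast; linarith) h0.le
  linarith

include h0 h1

lemma pw_up (m : ℕ) : (m : ℝ) * (((m + 1 : ℕ) : ℝ) ^ θ - (m : ℝ) ^ θ) ≤ θ * (m : ℝ) ^ θ := by
  rcases Nat.eq_zero_or_pos m with rfl | hm
  · rw [pw_zero h0]; simp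
  · have hm' : (0 : ℝ) < m := by exact_mod_cast hm
    have h2 : ((m + 1 : ℕ) : ℝ) = m * (1 + 1 / m) := by push_cast; field_simp
    have hq : 0 < 1 / (m : ℝ) := by positivity
    have h3 : (1 + 1 / (m : ℝ)) ^ θ ≤ 1 + θ * (1 / m) :=
      rpow_one_add_le_one_add_mul_self (by linarith) h0.le h1
    rw [h2, Real.mul_rpow hm'.le (by positivity)]
    have h4 : 0 ≤ (m : ℝ) ^ θ := by positivity
    calc (m : ℝ) * ((m : ℝ) ^ θ * (1 + 1 / (m : ℝ)) ^ θ - (m : ℝ) ^ θ)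
        = (m : ℝ) * (m : ℝ) ^ θ * ((1 + 1 / (m : ℝ)) ^ θ - 1) := by ring
      _ ≤ (m : ℝ) * (m : ℝ) ^ θ * (θ * (1 / m)) := by
          refine mul_le_mul_of_nonneg_left (by linarith) (by positivity)
      _ = θ * (m : ℝ) ^ θ := by field_simp

lemma pw_down (m : ℕ) : (m : ℝ) * (((m - 1 : ℕ) : ℝ) ^ θ - (m : ℝ) ^ θ) ≤ -(θ * (m : ℝ) ^ θ) := by
  rcases Nat.eq_zero_or_pos m with rfl | hm
  · rw [pw_zero h0]; simp
  · have hm' : (0 : ℝ) < m := by exact_mod_cast hm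
    have hm1 : (1 : ℝ) ≤ m := by exact_mod_cast hm
    have h2 : ((m - 1 : ℕ) : ℝ) = m * (1 + -(1 / m)) := by
      rw [Nat.cast_sub hm]; field_simp; push_cast; ring
    have h5 : 1 / (m : ℝ) ≤ 1 := by rw [div_le_one hm']; exact hm1
    have h3 : (1 + -(1 / (m : ℝ))) ^ θ ≤ 1 + θ * -(1 / m) :=
      rpow_one_add_le_one_add_mul_self (by linarith) h0.le h1
    rw [h2, Real.mul_rpow hm'.le (by linarith)]
    have h4 : 0 ≤ (m : ℝ) ^ θ := by positivity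
    calc (m : ℝ) * ((m : ℝ) ^ θ * (1 + -(1 / (m : ℝ))) ^ θ - (m : ℝ) ^ θ)
        = (m : ℝ) * (m : ℝ) ^ θ * ((1 + -(1 / (m : ℝ))) ^ θ - 1) := by ring
      _ ≤ (m : ℝ) * (m : ℝ) ^ θ * (θ * -(1 / m)) := by
          refine mul_le_mul_of_nonneg_left (by linarith) (by positivity)
      _ = -(θ * (m : ℝ) ^ θ) := by field_simp

lemma pw_inc (m : ℕ) : ((m + 1 : ℕ) : ℝ) ^ θ - (m : ℝ) ^ θ ≤ 1 := by
  rcases Nat.eq_zero_or_pos m with rfl | hm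
  · rw [pw_zero h0]; simp
  · have hm' : (0 : ℝ) < m := by exact_mod_cast hm
    have hm1 : (1 : ℝ) ≤ m := by exact_mod_cast hm
    have h2 := pw_up h0 h1 m
    have h3 : (m : ℝ) ^ θ ≤ m := by
      calc (m : ℝ) ^ θ ≤ (m : ℝ) ^ (1 : ℝ) := Real.rpow_le_rpow_of_exponent_le hm1 h1
        _ = m := Real.rpow_one _
    have h4 : θ * (m : ℝ) ^ θ ≤ m := by
      have : 0 ≤ (m : ℝ) ^ θ := by positivity
      nlinarith
    by_contra h5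
    push Not at h5
    nlinarith

end power

/-! ### The Lyapunov function -/

/-- The Lyapunov function -/
noncomputable def lyap (θ r : ℝ) (z : State 3 2) : ℝ :=
  2 * z.1 0 + (if z.2 = 0 then 1 + r else 1) * (z.1 1 : ℝ) ^ θ +
    (if z.2 = 0 then 1 else 1 + r) * (z.1 2 : ℝ) ^ θ

lemma lyap_nonneg {θ r : ℝ} (hr : 0 ≤ r) (z : State 3 2) : 0 ≤ lyap θ r z := by
  unfold lyap
  have h1 : (0 : ℝ) ≤ (z.1 1 : ℝ) ^ θ := by positivity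
  have h2 : (0 : ℝ) ≤ (z.1 2 : ℝ) ^ θ := by positivity
  split_ifs <;> positivity

set_option maxHeartbeats 1000000 in
lemma drift {κ θ : ℝ} (hκ : 0 < κ) (h0 : 0 < θ) (h1 : θ ≤ 1) (h2 : 6 * θ ≤ κ) (z : State 3 2)
    (hz : 2 ≤ 3 / 4 * (z.1 0 : ℝ) + θ / 4 * ((z.1 1 : ℝ) ^ θ + (z.1 2 : ℝ) ^ θ)) :
    ((jumps exR exQ κ z).map fun p =>
      p.1 * (lyap θ (3 * θ / (2 * κ)) p.2 - lyap θ (3 * θ / (2 * κ)) z)).sum ≤ 0 := by
  set r := 3 * θ / (2 * κ) with hr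
  have hκr : κ * r = 3 * θ / 2 := by rw [hr]; field_simp
  have hr0 : 0 < r := by positivity
  have hr1 : r ≤ 1 / 4 := by
    rw [hr, div_le_iff₀ (by positivity)]; linarith
  obtain ⟨x, i⟩ := z
  have u1 := pw_up h0 h1 (x 1)
  have u2 := pw_up h0 h1 (x 2)
  have d1 := pw_down h0 h1 (x 1)
  have d2 := pw_down h0 h1 (x 2)
  have i1 := pw_inc h0 h1 (x 1)
  have i2 := pw_inc h0 h1 (x 2)
  have e0 : (0 : ℝ) ≤ x 0 := Nat.cast_nonneg _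
  have f1 : (0 : ℝ) ≤ (x 1 : ℝ) ^ θ := by positivity
  have f2 : (0 : ℝ) ≤ (x 2 : ℝ) ^ θ := by positivity
  have g0 : (x 0 : ℝ) * (((x 0 - 1 : ℕ) : ℝ) - x 0) = - x 0 := by
    rcases Nat.eq_zero_or_pos (x 0) with h | h
    · rw [h]; simp
    · rw [Nat.cast_sub h]; ring
  have k1 := mul_le_mul_of_nonneg_left i1 e0
  have k2 := mul_le_mul_of_nonneg_left i2 e0
  fin_cases i
  · change 2 ≤ 3 / 4 * (x 0 : ℝ) + θ / 4 * ((x 1 : ℝ) ^ θ + (x 2 : ℝ) ^ θ) at hz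
    change ((jumps exR exQ κ (x, 0)).map fun p =>
      p.1 * (lyap θ r p.2 - lyap θ r (x, 0))).sum ≤ 0
    rw [jumps0]
    simp only [List.map_cons, List.map_nil, List.sum_cons, List.sum_nil, lyap, Matrix.cons_val_zero,
      Matrix.cons_val_one, Matrix.cons_val_two, if_true, if_neg (show (1 : Fin 2) ≠ 0 by decide),
      Matrix.tail_cons, Matrix.head_cons]
    have t1 : (1 : ℝ) * (2 * ((x 0 + 1 : ℕ) : ℝ) + (1 + r) * (x 1 : ℝ) ^ θ + 1 * (x 2 : ℝ) ^ θ -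
        (2 * (x 0 : ℝ) + (1 + r) * (x 1 : ℝ) ^ θ + 1 * (x 2 : ℝ) ^ θ)) = 2 := by push_cast; ring
    have t2 : (x 0 : ℝ) * (2 * ((x 0 - 1 : ℕ) : ℝ) + (1 + r) * ((x 1 + 1 : ℕ) : ℝ) ^ θ +
        1 * (x 2 : ℝ) ^ θ - (2 * (x 0 : ℝ) + (1 + r) * (x 1 : ℝ) ^ θ + 1 * (x 2 : ℝ) ^ θ)) =
        2 * ((x 0 : ℝ) * (((x 0 - 1 : ℕ) : ℝ) - x 0)) +
          (1 + r) * ((x 0 : ℝ) * (((x 1 + 1 : ℕ) : ℝ) ^ θ - (x 1 : ℝ) ^ θ)) := by ring
    have t3 : (x 1 : ℝ) * (2 * (x 0 : ℝ) + (1 + r) * ((x 1 + 1 : ℕ) : ℝ) ^ θ +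
        1 * (x 2 : ℝ) ^ θ - (2 * (x 0 : ℝ) + (1 + r) * (x 1 : ℝ) ^ θ + 1 * (x 2 : ℝ) ^ θ)) =
        (1 + r) * ((x 1 : ℝ) * (((x 1 + 1 : ℕ) : ℝ) ^ θ - (x 1 : ℝ) ^ θ)) := by ring
    have t4 : 2 * (x 2 : ℝ) * (2 * (x 0 : ℝ) + (1 + r) * (x 1 : ℝ) ^ θ +
        1 * ((x 2 - 1 : ℕ) : ℝ) ^ θ - (2 * (x 0 : ℝ) + (1 + r) * (x 1 : ℝ) ^ θ +
        1 * (x 2 : ℝ) ^ θ)) = 2 * ((x 2 : ℝ) * (((x 2 - 1 : ℕ) : ℝ) ^ θ - (x 2 : ℝ) ^ θ)) := by ring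
    have t5 : κ * (2 * (x 0 : ℝ) + 1 * (x 1 : ℝ) ^ θ + (1 + r) * (x 2 : ℝ) ^ θ -
        (2 * (x 0 : ℝ) + (1 + r) * (x 1 : ℝ) ^ θ + 1 * (x 2 : ℝ) ^ θ)) =
        (κ * r) * ((x 2 : ℝ) ^ θ - (x 1 : ℝ) ^ θ) := by ring
    rw [t1, t2, t3, t4, t5, hκr, g0]
    have k1' := mul_le_mul_of_nonneg_left k1 (by linarith : (0 : ℝ) ≤ 1 + r)
    have u1' := mul_le_mul_of_nonneg_left u1 (by linarith : (0 : ℝ) ≤ 1 + r)
    have s1 : (1 + r) * (x 0 * 1) ≤ 5 / 4 * (x 0 : ℝ) := by nlinarith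
    have s2 : (1 + r) * (θ * (x 1 : ℝ) ^ θ) ≤ 5 / 4 * (θ * (x 1 : ℝ) ^ θ) := by
      have : 0 ≤ θ * (x 1 : ℝ) ^ θ := by positivity
      nlinarith
    have s3 : 0 ≤ θ * (x 2 : ℝ) ^ θ := by positivity
    linarith
  · change 2 ≤ 3 / 4 * (x 0 : ℝ) + θ / 4 * ((x 1 : ℝ) ^ θ + (x 2 : ℝ) ^ θ) at hz
    change ((jumps exR exQ κ (x, 1)).map fun p =>
      p.1 * (lyap θ r p.2 - lyap θ r (x, 1))).sum ≤ 0
    rw [jumps1]
    simp only [List.map_cons, List.map_nil, List.sum_cons, List.sum_nil, lyap, Matrix.cons_val_zero,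
      Matrix.cons_val_one, Matrix.cons_val_two, if_true, if_neg (show (1 : Fin 2) ≠ 0 by decide),
      Matrix.tail_cons, Matrix.head_cons]
    have t1 : (1 : ℝ) * (2 * ((x 0 + 1 : ℕ) : ℝ) + 1 * (x 1 : ℝ) ^ θ + (1 + r) * (x 2 : ℝ) ^ θ -
        (2 * (x 0 : ℝ) + 1 * (x 1 : ℝ) ^ θ + (1 + r) * (x 2 : ℝ) ^ θ)) = 2 := by push_cast; ring
    have t2 : (x 0 : ℝ) * (2 * ((x 0 - 1 : ℕ) : ℝ) + 1 * (x 1 : ℝ) ^ θ +
        (1 + r) * ((x 2 + 1 : ℕ) : ℝ) ^ θ - (2 * (x 0 : ℝ) + 1 * (x 1 : ℝ) ^ θ +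
        (1 + r) * (x 2 : ℝ) ^ θ)) =
        2 * ((x 0 : ℝ) * (((x 0 - 1 : ℕ) : ℝ) - x 0)) +
          (1 + r) * ((x 0 : ℝ) * (((x 2 + 1 : ℕ) : ℝ) ^ θ - (x 2 : ℝ) ^ θ)) := by ring
    have t3 : (x 2 : ℝ) * (2 * (x 0 : ℝ) + 1 * (x 1 : ℝ) ^ θ +
        (1 + r) * ((x 2 + 1 : ℕ) : ℝ) ^ θ - (2 * (x 0 : ℝ) + 1 * (x 1 : ℝ) ^ θ +
        (1 + r) * (x 2 : ℝ) ^ θ)) =
        (1 + r) * ((x 2 : ℝ) * (((x 2 + 1 : ℕ) : ℝ) ^ θ - (x 2 : ℝ) ^ θ)) := by ring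
    have t4 : 2 * (x 1 : ℝ) * (2 * (x 0 : ℝ) + 1 * ((x 1 - 1 : ℕ) : ℝ) ^ θ +
        (1 + r) * (x 2 : ℝ) ^ θ - (2 * (x 0 : ℝ) + 1 * (x 1 : ℝ) ^ θ +
        (1 + r) * (x 2 : ℝ) ^ θ)) = 2 * ((x 1 : ℝ) * (((x 1 - 1 : ℕ) : ℝ) ^ θ - (x 1 : ℝ) ^ θ)) := by
      ring
    have t5 : κ * (2 * (x 0 : ℝ) + (1 + r) * (x 1 : ℝ) ^ θ + 1 * (x 2 : ℝ) ^ θ -
        (2 * (x 0 : ℝ) + 1 * (x 1 : ℝ) ^ θ + (1 + r) * (x 2 : ℝ) ^ θ)) =
        (κ * r) * ((x 1 : ℝ) ^ θ - (x 2 : ℝ) ^ θ) := by ring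
    rw [t1, t2, t3, t4, t5, hκr, g0]
    have k1' := mul_le_mul_of_nonneg_left k2 (by linarith : (0 : ℝ) ≤ 1 + r)
    have u1' := mul_le_mul_of_nonneg_left u2 (by linarith : (0 : ℝ) ≤ 1 + r)
    have s1 : (1 + r) * (x 0 * 1) ≤ 5 / 4 * (x 0 : ℝ) := by nlinarith
    have s2 : (1 + r) * (θ * (x 2 : ℝ) ^ θ) ≤ 5 / 4 * (θ * (x 2 : ℝ) ^ θ) := by
      have : 0 ≤ θ * (x 2 : ℝ) ^ θ := by positivity
      nlinarith
    have s3 : 0 ≤ θ * (x 1 : ℝ) ^ θ := by positivity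
    linarith

end Q296.Net
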