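import Pool.Agent.Q296.Net.Exa

/-!
# The example is recurrent
-/

namespace Q296.Net

open MeasureTheory ProbabilityTheory Filter Set
open scoped ENNReal

/-! ### Non-explosion -/

lemma ser_le_jumpTime {κ : ℝ} (hκ : 0 < κ) (z : State 3 2) (ω : ℕ → ℝ × ℝ)
    (hω : ∀ j, 0 < (ω j).2) (k : ℕ) :
    ser ((norm1 z.1 : ℝ) + (1 + κ) / 2) ω k / 2 ≤ jumpTime exR exQ κ z ω k := by
  unfold ser jumpTime
  rw [Finset.sum_div]
  refine Finset.sum_le_sum fun j _ => ?_
  rw [div_div]
  refine div_le_div_of_nonneg_left (hω j).le (total_pos hκ _) ?_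
  have h1 := total_le (κ := κ) (Seq.state (next exR exQ κ) z ω j)
  have h2 := norm_state (κ := κ) z ω j
  have h3 : ((norm1 (Seq.state (next exR exQ κ) z ω j).1 : ℕ) : ℝ) ≤ norm1 z.1 + j := by
    exact_mod_cast h2
  linarith

lemma nonExplosive {κ : ℝ} (hκ : 0 < κ) (z : State 3 2) : NonExplosive exR exQ κ z := by
  unfold NonExplosive
  have ha : 0 < (norm1 z.1 : ℝ) + (1 + κ) / 2 := by positivity
  filter_upwards [ae_ser_tendsto _ ha, ae_noise_pos] with ω h1 h2
  exact tendsto_atTop_mono (fun k => ser_le_jumpTime hκ z ω h2 k) (h1.atTop_div_const two_pos)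

/-! ### The process visits every state of the jump chain -/

lemma Z_jumpTime {κ : ℝ} (hκ : 0 < κ) (z : State 3 2) (ω : ℕ → ℝ × ℝ) (hω : ∀ j, 0 < (ω j).2)
    (k : ℕ) : Z exR exQ κ z ω (jumpTime exR exQ κ z ω k) = Seq.state (next exR exQ κ) z ω k := by
  have hmono : StrictMono (jumpTime exR exQ κ z ω) := by
    refine strictMono_nat_of_lt_succ fun j => ?_
    unfold jumpTime
    rw [Finset.sum_range_succ]
    have := div_pos (hω j) (total_pos hκ (Seq.state (next exR exQ κ) z ω j))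
    linarith
  unfold Z
  congr 1
  have h1 : {k' : ℕ | jumpTime exR exQ κ z ω k < jumpTime exR exQ κ z ω (k' + 1)} = Set.Ici k := by
    ext k'
    rw [mem_ofPred_eq, hmono.lt_iff_lt, mem_Ici]
    omega
  rw [h1]
  exact csInf_Ici

/-! ### Recurrence -/

lemma exists_large {θ : ℝ} (h0 : 0 < θ) (L : ℝ) : ∃ M : ℕ, ∀ m : ℕ, M ≤ m → L ≤ (m : ℝ) ^ θ := by
  have h1 : Tendsto (fun m : ℕ => (m : ℝ) ^ θ) atTop atTop :=
    (tendsto_rpow_atTop h0).comp tendsto_natCast_atTop_atTop
  obtain ⟨M, hM⟩ := (tendsto_atTop.1 h1 L).exists_forall_of_atTop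
  exact ⟨M, hM⟩

theorem notEvanescent {κ : ℝ} (hκ : 0 < κ) (z : State 3 2) : ¬ Evanescent exR exQ κ z := by
  unfold Evanescent
  rw [not_lt, nonpos_iff_eq_zero]
  set θ := min (κ / 6) 1 with hθ
  have h0 : 0 < θ := lt_min (by positivity) one_pos
  have h1 : θ ≤ 1 := min_le_right _ _
  have h2 : 6 * θ ≤ κ := by have := min_le_left (κ / 6) 1; linarith
  set r := 3 * θ / (2 * κ) with hr
  have hr0 : 0 ≤ r := by positivity
  obtain ⟨M, hM⟩ := exists_large h0 (8 / θ)
  set F : Set (State 3 2) := {y | norm1 y.1 < 3 * (M + 3)} with hF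
  have hbig : ∀ (x : Fin 3 → ℕ) (N : ℕ), 3 * N ≤ norm1 x → N ≤ x 0 ∨ N ≤ x 1 ∨ N ≤ x 2 := by
    intro x N h
    rw [norm1_three] at h
    omega
  have hsuper : ∀ s, s ∉ F → ∫⁻ e, ENNReal.ofReal (lyap θ r (next exR exQ κ s e)) ∂noise ≤
      ENNReal.ofReal (lyap θ r s) := by
    intro s hs
    refine super_of_drift exR exQ κ (lyap θ r) (lyap_nonneg hr0) s (total_pos hκ s)
      (jumps_nonneg hκ s) ?_
    refine drift hκ h0 h1 h2 s ?_
    have hs' : 3 * (M + 3) ≤ norm1 s.1 := not_lt.1 hs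
    have f0 : (0 : ℝ) ≤ s.1 0 := Nat.cast_nonneg _
    have f1 : (0 : ℝ) ≤ (s.1 1 : ℝ) ^ θ := by positivity
    have f2 : (0 : ℝ) ≤ (s.1 2 : ℝ) ^ θ := by positivity
    have hconv : θ / 4 * (8 / θ) = 2 := by field_simp; norm_num
    rcases hbig s.1 (M + 3) hs' with h | h | h
    · have h3 : (3 : ℝ) ≤ s.1 0 := by
        have : 3 ≤ s.1 0 := by omega
        exact_mod_cast this
      have : 0 ≤ θ / 4 * ((s.1 1 : ℝ) ^ θ + (s.1 2 : ℝ) ^ θ) := by positivity
      linarith
    · have h3 := hM (s.1 1) (by omega)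
      have h4 : θ / 4 * (8 / θ) ≤ θ / 4 * ((s.1 1 : ℝ) ^ θ + (s.1 2 : ℝ) ^ θ) :=
        mul_le_mul_of_nonneg_left (by linarith) (by positivity)
      linarith
    · have h3 := hM (s.1 2) (by omega)
      have h4 : θ / 4 * (8 / θ) ≤ θ / 4 * ((s.1 1 : ℝ) ^ θ + (s.1 2 : ℝ) ^ θ) :=
        mul_le_mul_of_nonneg_left (by linarith) (by positivity)
      linarith
  have hesc := fun N => measure_escape noise (next exR exQ κ)
    (fun y => ENNReal.ofReal (lyap θ r y)) F (measurable_next exR exQ κ) hsuper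
    (fun _ => ENNReal.ofReal_ne_top) N z
  have hlarge : ∀ L : ℕ, ∃ N : ℕ, ∀ y : State 3 2, N ≤ norm1 y.1 →
      (L : ℝ≥0∞) ≤ ENNReal.ofReal (lyap θ r y) := by
    intro L
    obtain ⟨M', hM'⟩ := exists_large h0 (L : ℝ)
    refine ⟨3 * (M' + L), fun y hy => ?_⟩
    have f0 : (0 : ℝ) ≤ y.1 0 := Nat.cast_nonneg _
    have f1 : (0 : ℝ) ≤ (y.1 1 : ℝ) ^ θ := by positivity
    have f2 : (0 : ℝ) ≤ (y.1 2 : ℝ) ^ θ := by positivity
    have h5 : 2 * (y.1 0 : ℝ) + (y.1 1 : ℝ) ^ θ + (y.1 2 : ℝ) ^ θ ≤ lyap θ r y := by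
      unfold lyap
      split_ifs <;> nlinarith
    have h6 : (L : ℝ) ≤ lyap θ r y := by
      refine le_trans ?_ h5
      rcases hbig y.1 (M' + L) hy with h | h | h
      · have : (L : ℝ) ≤ y.1 0 := by
          have : L ≤ y.1 0 := by omega
          exact_mod_cast this
        linarith
      · have := hM' (y.1 1) (by omega)
        linarith
      · have := hM' (y.1 2) (by omega)
        linarith
    rw [← ENNReal.ofReal_natCast]
    exact ENNReal.ofReal_le_ofReal h6
  have hnull : ∀ᵐ ω ∂(Seq.iid noise), ¬ Tendsto (fun t : ℝ => norm1 (Z exR exQ κ z ω t).1)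
      atTop atTop := by
    have hall : ∀ᵐ ω ∂(Seq.iid noise), ∀ N, ω ∉ escape (next exR exQ κ)
        (fun y => ENNReal.ofReal (lyap θ r y)) F N z := by
      rw [ae_all_iff]
      intro N
      exact measure_eq_zero_iff_ae_notMem.1 (hesc N)
    filter_upwards [hall, nonExplosive hκ z, ae_noise_pos] with ω h3 h4 h5 h6
    have h7 : Tendsto (fun k : ℕ => norm1 (Seq.state (next exR exQ κ) z ω k).1) atTop atTop := by
      have h8 := h6.comp h4
      refine h8.congr fun k => ?_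
      simp only [Function.comp]
      rw [Z_jumpTime hκ z ω h5 k]
    obtain ⟨N, hN⟩ := (tendsto_atTop.1 h7 (3 * (M + 3))).exists_forall_of_atTop
    refine h3 N ⟨fun k hk => not_lt.2 (hN k hk), fun L => ?_⟩
    obtain ⟨N', hN'⟩ := hlarge L
    obtain ⟨K, hK⟩ := (tendsto_atTop.1 h7 N').exists_forall_of_atTop
    exact ⟨max K N, le_max_right _ _, hN' _ (hK _ (le_max_left _ _))⟩
  have h9 := ae_iff.1 hnull
  simpa using h9

/-! ### Irreducibility -/

/-- a jump with positive rate -/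
def Step (κ : ℝ) (y y' : State 3 2) : Prop := ∃ w : ℝ, 0 < w ∧ (w, y') ∈ jumps exR exQ κ y

variable {κ : ℝ} (hκ : 0 < κ)

lemma step_in (s a b : ℕ) (i : Fin 2) : Step κ (![s, a, b], i) (![s + 1, a, b], i) := by
  fin_cases i
  · refine ⟨1, one_pos, ?_⟩
    change _ ∈ jumps exR exQ κ (![s, a, b], 0)
    rw [jumps0]; simp
  · refine ⟨1, one_pos, ?_⟩
    change _ ∈ jumps exR exQ κ (![s, a, b], 1)
    rw [jumps1]; simp

include hκ in
lemma step_switch (s a b : ℕ) : Step κ (![s, a, b], 0) (![s, a, b], 1) ∧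
    Step κ (![s, a, b], 1) (![s, a, b], 0) := by
  refine ⟨⟨κ, hκ, ?_⟩, ⟨κ, hκ, ?_⟩⟩
  · rw [jumps0]; simp
  · rw [jumps1]; simp

lemma step_sa (s a b : ℕ) : Step κ (![s + 1, a, b], 0) (![s, a + 1, b], 0) := by
  refine ⟨(s : ℝ) + 1, by positivity, ?_⟩
  rw [jumps0]; simp

lemma step_sb (s a b : ℕ) : Step κ (![s + 1, a, b], 1) (![s, a, b + 1], 1) := by
  refine ⟨(s : ℝ) + 1, by positivity, ?_⟩
  rw [jumps1]; simp

lemma step_b (s a b : ℕ) : Step κ (![s, a, b + 1], 0) (![s, a, b], 0) := by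
  refine ⟨2 * ((b : ℝ) + 1), by positivity, ?_⟩
  rw [jumps0]; simp

lemma step_a (s a b : ℕ) : Step κ (![s, a + 1, b], 1) (![s, a, b], 1) := by
  refine ⟨2 * ((a : ℝ) + 1), by positivity, ?_⟩
  rw [jumps1]; simp

open Relation in
include hκ in
theorem irreducible (y y' : State 3 2) : ReflTransGen (Step κ) y y' := by
  -- kill everything
  have k1 : ∀ s a b : ℕ, ReflTransGen (Step κ) (![s, a, b], 1) (![0, a, b + s], 1) := by
    intro s
    induction s with
    | zero => intro a b; exact ReflTransGen.refl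
    | succ s ih =>
      intro a b
      have h := ih a (b + 1)
      have e : b + 1 + s = b + (s + 1) := by omega
      rw [e] at h
      exact ReflTransGen.head (step_sb s a b) h
  have k2 : ∀ a b : ℕ, ReflTransGen (Step κ) (![0, a, b], 1) (![0, 0, b], 1) := by
    intro a
    induction a with
    | zero => intro b; exact ReflTransGen.refl
    | succ a ih => intro b; exact ReflTransGen.head (step_a 0 a b) (ih b)
  have k3 : ∀ b : ℕ, ReflTransGen (Step κ) (![0, 0, b], 0) (![0, 0, 0], 0) := by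
    intro b
    induction b with
    | zero => exact ReflTransGen.refl
    | succ b ih => exact ReflTransGen.head (step_b 0 0 b) ih
  have kill1 : ∀ s a b : ℕ, ReflTransGen (Step κ) (![s, a, b], 1) (![0, 0, 0], 0) := by
    intro s a b
    exact (k1 s a b).trans ((k2 a (b + s)).trans
      (ReflTransGen.head (step_switch hκ 0 0 (b + s)).2 (k3 (b + s))))
  have kill : ∀ (s a b : ℕ) (i : Fin 2), ReflTransGen (Step κ) (![s, a, b], i) (![0, 0, 0], 0) := by
    intro s a b i
    fin_cases i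
    · exact ReflTransGen.head (step_switch hκ s a b).1 (kill1 s a b)
    · exact kill1 s a b
  -- build
  have b1 : ∀ a : ℕ, ReflTransGen (Step κ) (![0, 0, 0], 0) (![0, a, 0], 0) := by
    intro a
    induction a with
    | zero => exact ReflTransGen.refl
    | succ a ih => exact (ih.tail (step_in 0 a 0 0)).tail (step_sa 0 a 0)
  have b2 : ∀ a b : ℕ, ReflTransGen (Step κ) (![0, 0, 0], 0) (![0, a, b], 1) := by
    intro a b
    induction b with
    | zero => exact (b1 a).tail (step_switch hκ 0 a 0).1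
    | succ b ih => exact (ih.tail (step_in 0 a b 1)).tail (step_sb 0 a b)
  have b3 : ∀ s a b : ℕ, ReflTransGen (Step κ) (![0, 0, 0], 0) (![s, a, b], 1) := by
    intro s a b
    induction s with
    | zero => exact b2 a b
    | succ s ih => exact ih.tail (step_in s a b 1)
  have build : ∀ (s a b : ℕ) (i : Fin 2), ReflTransGen (Step κ) (![0, 0, 0], 0) (![s, a, b], i) := by
    intro s a b i
    fin_cases i
    · exact (b3 s a b).tail (step_switch hκ s a b).2
    · exact b3 s a b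
  have hform : ∀ y : State 3 2, y = (![y.1 0, y.1 1, y.1 2], y.2) := by
    rintro ⟨x, i⟩
    refine Prod.ext ?_ rfl
    funext m
    fin_cases m <;> rfl
  rw [hform y, hform y']
  exact (kill _ _ _ _).trans (build _ _ _ _)

/-! ### The hypotheses -/

/-- The matrices of the linear parts. -/
def exM : Fin 2 → Matrix (Fin 3) (Fin 3) ℝ :=
  ![!![-1, 0, 0; 1, 1, 0; 0, 0, -2], !![-1, 0, 0; 0, -2, 0; 1, 0, 1]]

/-- The vectors of the hypothesis. -/
def exv : Fin 2 → Fin 3 → ℝ := ![![1, 2, 0], ![1, 0, 2]]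

lemma monomolecular (i : Fin 2) : IsMonomolecular (exR i) := by
  fin_cases i
  · change IsMonomolecular env0
    refine ⟨?_, by decide⟩
    intro r hr
    simp only [env0, List.mem_cons, List.not_mem_nil, or_false] at hr
    rcases hr with rfl | rfl | rfl | rfl
    · exact ⟨Or.inl (by decide), by norm_num, by decide⟩
    · exact ⟨Or.inr ⟨0, by decide⟩, by norm_num, by decide⟩
    · exact ⟨Or.inr ⟨1, by decide⟩, by norm_num, by decide⟩
    · exact ⟨Or.inr ⟨2, by decide⟩, by norm_num, by decide⟩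
  · change IsMonomolecular env1
    refine ⟨?_, by decide⟩
    intro r hr
    simp only [env1, List.mem_cons, List.not_mem_nil, or_false] at hr
    rcases hr with rfl | rfl | rfl | rfl
    · exact ⟨Or.inl (by decide), by norm_num, by decide⟩
    · exact ⟨Or.inr ⟨0, by decide⟩, by norm_num, by decide⟩
    · exact ⟨Or.inr ⟨2, by decide⟩, by norm_num, by decide⟩
    · exact ⟨Or.inr ⟨1, by decide⟩, by norm_num, by decide⟩

lemma drift_eq (i : Fin 2) (m : Fin 3) (x : Fin 3 → ℕ) :
    ((exR i).map fun r => r.rate x * ((r.tgt m : ℝ) - r.src m)).sum -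
      (exM i).mulVec (fun l => (x l : ℝ)) m = if m = 0 then 1 else 0 := by
  fin_cases i
  · change (env0.map fun r => r.rate x * ((r.tgt m : ℝ) - r.src m)).sum -
      (!![-1, 0, 0; 1, 1, 0; 0, 0, -2] : Matrix (Fin 3) (Fin 3) ℝ).mulVec (fun l => (x l : ℝ)) m = _
    fin_cases m <;>
      simp [env0, Reaction.rate, Fin.prod_univ_three, Matrix.mulVec, dotProduct,
        Fin.sum_univ_three] <;> ring
  · change (env1.map fun r => r.rate x * ((r.tgt m : ℝ) - r.src m)).sum -
      (!![-1, 0, 0; 0, -2, 0; 1, 0, 1] : Matrix (Fin 3) (Fin 3) ℝ).mulVec (fun l => (x l : ℝ)) m = _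
    fin_cases m <;>
      simp [env1, Reaction.rate, Fin.prod_univ_three, Matrix.mulVec, dotProduct,
        Fin.sum_univ_three] <;> ring

lemma linearPart (i : Fin 2) : IsLinearPart (exR i) (exM i) := by
  intro m ε hε
  obtain ⟨N, hN⟩ := exists_nat_ge (1 / ε)
  refine ⟨N, fun x hx => ?_⟩
  rw [drift_eq]
  have h1 : (1 : ℝ) ≤ ε * norm1 x := by
    have h2 : (N : ℝ) ≤ norm1 x := by exact_mod_cast hx
    have h3 : 1 / ε ≤ norm1 x := hN.trans h2
    rw [div_le_iff₀ hε] at h3
    linarith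
  split_ifs
  · rw [abs_one]; exact h1
  · rw [abs_zero]; linarith

lemma irredQ : IsIrreducibleRateMatrix exQ := by
  refine ⟨?_, ?_, ?_⟩
  · intro i j h
    fin_cases i <;> fin_cases j <;> simp [exQ] at h ⊢
  · intro i
    fin_cases i <;> simp [exQ, Fin.sum_univ_two]
  · intro i j
    by_cases h : i = j
    · rw [h]
    · refine Relation.ReflTransGen.single ⟨h, ?_⟩
      fin_cases i <;> fin_cases j <;> simp [exQ] at h ⊢

lemma vec_nonneg (i : Fin 2) (m : Fin 3) : 0 ≤ exv i m := by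
  fin_cases i <;> fin_cases m <;> simp [exv]

lemma vec_pos (i : Fin 2) (m : Fin 3) (h : exv i m ≠ 0) : 0 < Matrix.vecMul (exv i) (exM i) m := by
  fin_cases i <;> fin_cases m <;>
    simp [exv, exM, Matrix.vecMul, dotProduct, Fin.sum_univ_three] at h ⊢

end Q296.Net
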