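import Pool.Agent.Q296.Net.Gen

/-!
# A recurrent slowly switching monomolecular network
-/

namespace Q296.Net

open MeasureTheory ProbabilityTheory Filter Set
open scoped ENNReal

/-! ### One-step integrals -/

lemma pick_mem {α : Type*} (a : α) (l : List (ℝ × α)) (u : ℝ) :
    pick a l u = a ∨ ∃ p ∈ l, pick a l u = p.2 := by
  induction l generalizing u with
  | nil => left; rfl
  | cons p l ih =>
    obtain ⟨w, b⟩ := p
    simp only [pick]
    split_ifs
    · right; exact ⟨(w, b), List.mem_cons_self .., rfl⟩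
    · rcases ih (u - w) with h | ⟨p, hp, h⟩
      · left; exact h
      · right; exact ⟨p, List.mem_cons_of_mem _ hp, h⟩

variable {d n : ℕ} (R : Fin n → List (Reaction d)) (Q : Matrix (Fin n) (Fin n) ℝ) (κ : ℝ)

lemma measurable_next (z : State d n) : Measurable (next R Q κ z) := by
  unfold next
  exact (measurable_pick z _).comp measurable_fst

lemma next_mem (z : State d n) (e : ℝ × ℝ) :
    next R Q κ z e = z ∨ ∃ p ∈ jumps R Q κ z, next R Q κ z e = p.2 := by
  unfold next
  rcases pick_mem z ((jumps R Q κ z).map fun p => (p.1 / total R Q κ z, p.2)) e.1 with h | ⟨p, hp, h⟩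
  · left; exact h
  · right
    obtain ⟨p', hp', rfl⟩ := List.mem_map.1 hp
    exact ⟨p', hp', h⟩

lemma list_sum_ofReal {α : Type*} (l : List α) (f : α → ℝ) (hf : ∀ a ∈ l, 0 ≤ f a) :
    (l.map fun a => ENNReal.ofReal (f a)).sum = ENNReal.ofReal (l.map f).sum := by
  induction l with
  | nil => simp
  | cons a l ih =>
    rw [List.map_cons, List.sum_cons, List.map_cons, List.sum_cons,
      ih (fun b hb => hf b (List.mem_cons_of_mem _ hb)), ENNReal.ofReal_add (hf a (List.mem_cons_self ..))]
    refine List.sum_nonneg ?_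
    intro x hx
    obtain ⟨b, hb, rfl⟩ := List.mem_map.1 hx
    exact hf b (List.mem_cons_of_mem _ hb)

lemma list_sum_div {α : Type*} (l : List α) (f : α → ℝ) (T : ℝ) :
    (l.map fun a => f a / T).sum = (l.map f).sum / T := by
  induction l with
  | nil => simp
  | cons a l ih =>
    simp only [List.map_cons, List.sum_cons]
    rw [ih]; ring

lemma super_of_drift (V : State d n → ℝ) (hV : ∀ z, 0 ≤ V z) (z : State d n)
    (hpos : 0 < total R Q κ z) (hnn : ∀ p ∈ jumps R Q κ z, 0 ≤ p.1)
    (hdrift : ((jumps R Q κ z).map fun p => p.1 * (V p.2 - V z)).sum ≤ 0) :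
    ∫⁻ e, ENNReal.ofReal (V (next R Q κ z e)) ∂noise ≤ ENNReal.ofReal (V z) := by
  set T := total R Q κ z with hT
  set l := (jumps R Q κ z).map fun p => (p.1 / T, p.2) with hl
  have hl0 : ∀ p ∈ l, 0 ≤ p.1 := by
    intro p hp
    obtain ⟨p', hp', rfl⟩ := List.mem_map.1 hp
    exact div_nonneg (hnn p' hp') hpos.le
  have hsum : (l.map Prod.fst).sum = 1 := by
    rw [hl, List.map_map]
    have h1 : (Prod.fst ∘ fun p : ℝ × State d n => (p.1 / T, p.2)) = fun p => p.1 / T := rfl
    rw [h1]
    rw [list_sum_div (jumps R Q κ z) Prod.fst T]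
    exact div_self hpos.ne'
  have hm : Measurable fun e : ℝ × ℝ => ENNReal.ofReal (V (next R Q κ z e)) := by
    have h3 : Measurable fun y : State d n => ENNReal.ofReal (V y) := measurable_of_countable _
    exact h3.comp (measurable_next R Q κ z)
  have h4 : ∫⁻ e, ENNReal.ofReal (V (next R Q κ z e)) ∂noise =
      ∫⁻ u in Ico (0 : ℝ) 1, ENNReal.ofReal (V (pick z l u)) := by
    unfold noise
    rw [lintegral_prod _ hm.aemeasurable]
    refine lintegral_congr fun u => ?_
    have h5 : ∀ h : ℝ, next R Q κ z (u, h) = pick z l u := fun h => rfl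
    simp only [h5]
    rw [lintegral_const, measure_univ, mul_one]
  rw [h4]
  have h6 := lintegral_pick (fun y => ENNReal.ofReal (V y)) z l hl0
  rw [hsum] at h6
  rw [h6]
  have h7 : (l.map fun p => ENNReal.ofReal p.1 * ENNReal.ofReal (V p.2)) =
      l.map fun p => ENNReal.ofReal (p.1 * V p.2) := by
    refine List.map_congr_left fun p hp => ?_
    rw [ENNReal.ofReal_mul (hl0 p hp)]
  rw [h7, list_sum_ofReal l (fun p => p.1 * V p.2) (fun p hp => mul_nonneg (hl0 p hp) (hV _))]
  refine ENNReal.ofReal_le_ofReal ?_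
  have h8 : (l.map fun p => p.1 * V p.2).sum =
      ((jumps R Q κ z).map fun p => p.1 * V p.2).sum / T := by
    rw [hl, List.map_map, ← list_sum_div]
    congr 1
    refine List.map_congr_left fun p _ => ?_
    simp only [Function.comp]
    ring
  have h9 : ((jumps R Q κ z).map fun p => p.1 * (V p.2 - V z)).sum =
      ((jumps R Q κ z).map fun p => p.1 * V p.2).sum - T * V z := by
    have : (fun p : ℝ × State d n => p.1 * (V p.2 - V z)) = fun p => p.1 * V p.2 - p.1 * V z := by
      funext p; ring
    rw [this, hT, total]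
    generalize jumps R Q κ z = L
    induction L with
    | nil => simp
    | cons a L ih =>
      simp only [List.map_cons, List.sum_cons]
      rw [ih]
      ring
  rw [h8, div_le_iff₀ hpos]
  rw [h9] at hdrift
  linarith

end Q296.Net
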